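import Pool.Agent.MP_321233_an.Kernels

/-!
# [MP_321233_an] a representing system of Cauchy kernels whose points converge to one boundary point

The points of the sequence converge to `-1`. So they accumulate at no point of the open disc and at exactly
one point of the unit circle.
-/

set_option autoImplicit false

open Filter Topology

namespace Pool.Agent.MP_321233_an

/-- There is a sequence of distinct points of the open unit disc which converges to the point `-1` of the
unit circle such that the Cauchy kernels of its points are a representing system of the Hardy space. -/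
theorem exists_boundary :
    ∃ Λ : ℕ → ℂ, Function.Injective Λ ∧ (∀ n, ‖Λ n‖ < 1) ∧ Tendsto Λ atTop (𝓝 (-1)) ∧
      ∀ f : ℕ → ℂ, Summable (fun n => ‖f n‖ ^ 2) →
        ∃ c : ℕ → ℂ, Filter.Tendsto
          (fun N : ℕ => ∑' n : ℕ,
            ‖f n - ∑ k ∈ Finset.range N, c k * (starRingEnd ℂ (Λ k)) ^ n‖ ^ 2)
          Filter.atTop (nhds 0) := by
  obtain ⟨N, Λ, hN, hN0, hinj, hblk, hrep⟩ := MP321233.blocks
    (fun i => Metric.ball (-1 : ℂ) (1 / ((i : ℝ) + 1)) ∩ Metric.ball 0 1)
    (fun i => Metric.isOpen_ball.inter Metric.isOpen_ball)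
    (fun i => by
      have h1 : (-1 : ℂ) ∈ closure (Metric.ball (0 : ℂ) 1) := by
        rw [closure_ball (0 : ℂ) one_ne_zero]
        simp
      obtain ⟨w, hw1, hw2⟩ := Metric.mem_closure_iff.1 h1 (1 / ((i : ℝ) + 1)) (by positivity)
      exact ⟨w, by rw [Metric.mem_ball, dist_comm]; exact hw2, hw1⟩)
    (fun i a ha => mem_ball_zero_iff.1 ha.2)
  have hex : ∀ n, ∃ j, N j ≤ n ∧ n < N (j + 1) := by
    intro n
    induction n with
    | zero =>
      have h1 : N 0 < N (0 + 1) := hN (Nat.lt_succ_self 0)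
      exact ⟨0, by omega, by omega⟩
    | succ n ih =>
      obtain ⟨j, h1, h2⟩ := ih
      by_cases h3 : n + 1 < N (j + 1)
      · exact ⟨j, by omega, h3⟩
      · refine ⟨j + 1, by omega, ?_⟩
        have h4 : N (j + 1) < N (j + 1 + 1) := hN (Nat.lt_succ_self _)
        omega
  have hnorm : ∀ n, ‖Λ n‖ < 1 := by
    intro n
    obtain ⟨j, h1, h2⟩ := hex n
    exact mem_ball_zero_iff.1 (hblk j n h1 h2).2
  refine ⟨Λ, hinj, hnorm, ?_, ?_⟩
  · rw [Metric.tendsto_atTop]
    intro ε hε
    obtain ⟨J, hJ⟩ := exists_nat_one_div_lt hε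
    refine ⟨N J, fun n hn => ?_⟩
    obtain ⟨j, h1, h2⟩ := hex n
    have hjJ : J ≤ j := by
      have h3 := hN.lt_iff_lt.1 (lt_of_le_of_lt hn h2)
      omega
    have h4 := (hblk j n h1 h2).1
    rw [Metric.mem_ball] at h4
    have h5 : 1 / ((j : ℝ) + 1) ≤ 1 / ((J : ℝ) + 1) := by
      apply one_div_le_one_div_of_le (by positivity)
      have : (J : ℝ) ≤ j := by exact_mod_cast hjJ
      linarith
    linarith
  · intro f hf
    have hfmem : Memℓp f 2 := by
      rw [memℓp_gen_iff (by norm_num)]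
      norm_num
      exact hf
    obtain ⟨c, hc⟩ := hrep (⟨f, hfmem⟩ : lp (fun _ : ℕ => ℂ) 2)
    refine ⟨c, ?_⟩
    have h1 : Filter.Tendsto (fun N : ℕ =>
        ‖(⟨f, hfmem⟩ : lp (fun _ : ℕ => ℂ) 2) - ∑ k ∈ Finset.range N, c k • MP321233.ker (Λ k)‖ ^ 2)
        Filter.atTop (nhds 0) := by
      have h2 := (tendsto_const_nhds (x := (⟨f, hfmem⟩ : lp (fun _ : ℕ => ℂ) 2))
        (f := Filter.atTop (α := ℕ))).sub hc
      rw [sub_self] at h2
      have h3 := h2.norm.pow 2
      simpa using h3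
    refine h1.congr ?_
    intro N
    rw [MP321233.norm_sq_eq]
    apply tsum_congr
    intro n
    congr 2
    have h5 : ((∑ k ∈ Finset.range N, c k • MP321233.ker (Λ k) : lp (fun _ : ℕ => ℂ) 2) : ℕ → ℂ) n =
        ∑ k ∈ Finset.range N, c k * (starRingEnd ℂ (Λ k)) ^ n := by
      rw [lp.coeFn_sum, Finset.sum_apply]
      apply Finset.sum_congr rfl
      intro k _
      rw [lp.coeFn_smul, Pi.smul_apply, MP321233.ker_apply (hnorm k)]
      simp
    rw [lp.coeFn_sub, Pi.sub_apply, h5]

end Pool.Agent.MP_321233_an
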