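import Pool.Agent.MP_321233_an.Reach

set_option autoImplicit false

open Filter Topology

namespace MP321233

lemma memlp_conj_pow {a : ℂ} (ha : ‖a‖ < 1) :
    Memℓp (fun n : ℕ => (starRingEnd ℂ a) ^ n) 2 := by
  rw [memℓp_gen_iff (by norm_num)]
  have : (fun n : ℕ => ‖(starRingEnd ℂ a) ^ n‖ ^ (2 : ENNReal).toReal) =
      fun n : ℕ => (‖a‖ ^ 2) ^ n := by
    funext n
    rw [norm_pow, RCLike.norm_conj]
    norm_num
    rw [← pow_mul, ← pow_mul, mul_comm]
  rw [this]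
  exact summable_geometric_of_lt_one (by positivity) (by nlinarith [norm_nonneg a])

open Classical in
/-- The coefficient sequence of the Cauchy kernel at `a`, as an element of `ℓ²` (zero outside the disc). -/
noncomputable def ker (a : ℂ) : lp (fun _ : ℕ => ℂ) 2 :=
  if h : ‖a‖ < 1 then ⟨fun n : ℕ => (starRingEnd ℂ a) ^ n, memlp_conj_pow h⟩ else 0

lemma ker_apply {a : ℂ} (ha : ‖a‖ < 1) (n : ℕ) :
    (ker a : ℕ → ℂ) n = (starRingEnd ℂ a) ^ n := by
  unfold ker
  rw [dif_pos ha]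

/-- The reproducing property. -/
lemma inner_ker {a : ℂ} (ha : ‖a‖ < 1) (g : lp (fun _ : ℕ => ℂ) 2) :
    inner ℂ (ker a) g = ∑' n : ℕ, a ^ n * (g : ℕ → ℂ) n := by
  rw [lp.inner_eq_tsum]
  apply tsum_congr
  intro n
  rw [ker_apply ha]
  simp [mul_comm]

lemma inner_ker_ker {a b : ℂ} (ha : ‖a‖ < 1) (hb : ‖b‖ < 1) :
    inner ℂ (ker a) (ker b) = (1 - a * starRingEnd ℂ b)⁻¹ := by
  rw [inner_ker ha]
  have h1 : ‖a * starRingEnd ℂ b‖ < 1 := by
    rw [norm_mul, RCLike.norm_conj]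
    exact mul_lt_one_of_nonneg_of_lt_one_left (norm_nonneg _) ha hb.le
  rw [← tsum_geometric_of_norm_lt_one h1]
  apply tsum_congr
  intro n
  rw [ker_apply hb, mul_pow]

lemma ker_continuousAt {a : ℂ} (ha : ‖a‖ < 1) : ContinuousAt ker a := by
  have hU : ∀ᶠ b in 𝓝 a, ‖b‖ < 1 := continuous_norm.continuousAt.eventually (Iio_mem_nhds ha)
  rw [ContinuousAt, tendsto_iff_norm_sub_tendsto_zero]
  have h0 : ∀ b c : ℂ, ‖b‖ < 1 → ‖c‖ < 1 → (1 - b * starRingEnd ℂ c) ≠ 0 := by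
    intro b c hb hc h
    have h1 : b * starRingEnd ℂ c = 1 := (sub_eq_zero.1 h).symm
    have h2 : ‖b * starRingEnd ℂ c‖ < 1 := by
      rw [norm_mul, RCLike.norm_conj]
      exact mul_lt_one_of_nonneg_of_lt_one_left (norm_nonneg _) hb hc.le
    rw [h1, norm_one] at h2
    exact lt_irrefl _ h2
  have h2 : Tendsto (fun b => ‖ker b - ker a‖ ^ 2) (𝓝 a) (𝓝 0) := by
    have h3 : Tendsto (fun b => ((1 - b * starRingEnd ℂ b)⁻¹).re - 2 * ((1 - b * starRingEnd ℂ a)⁻¹).re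
        + ((1 - a * starRingEnd ℂ a)⁻¹).re) (𝓝 a) (𝓝 (((1 - a * starRingEnd ℂ a)⁻¹).re
        - 2 * ((1 - a * starRingEnd ℂ a)⁻¹).re + ((1 - a * starRingEnd ℂ a)⁻¹).re)) := by
      have hc : ContinuousAt (fun b : ℂ => ((1 - b * starRingEnd ℂ b)⁻¹).re
          - 2 * ((1 - b * starRingEnd ℂ a)⁻¹).re + ((1 - a * starRingEnd ℂ a)⁻¹).re) a := by
        have c1 : ContinuousAt (fun b : ℂ => (1 - b * starRingEnd ℂ b)⁻¹) a :=
          ContinuousAt.inv₀ (by fun_prop) (h0 a a ha ha)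
        have c2 : ContinuousAt (fun b : ℂ => (1 - b * starRingEnd ℂ a)⁻¹) a :=
          ContinuousAt.inv₀ (by fun_prop) (h0 a a ha ha)
        exact ((Complex.continuous_re.continuousAt.comp c1).sub
          ((Complex.continuous_re.continuousAt.comp c2).const_mul 2 |>.congr (by
            exact Filter.Eventually.of_forall fun _ => rfl))).add continuousAt_const
      exact hc
    have h4 : ((1 - a * starRingEnd ℂ a)⁻¹).re
        - 2 * ((1 - a * starRingEnd ℂ a)⁻¹).re + ((1 - a * starRingEnd ℂ a)⁻¹).re = 0 := by ring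
    rw [h4] at h3
    refine h3.congr' ?_
    filter_upwards [hU] with b hb
    rw [@norm_sub_sq ℂ, inner_ker_ker hb ha, ← @inner_self_eq_norm_sq ℂ _ _ _ _ (ker b),
      ← @inner_self_eq_norm_sq ℂ _ _ _ _ (ker a), inner_ker_ker hb hb, inner_ker_ker ha ha]
    rfl
  have h5 := (Real.continuous_sqrt.tendsto 0).comp h2
  rw [Real.sqrt_zero] at h5
  refine h5.congr fun b => ?_
  exact Real.sqrt_sq (norm_nonneg _)

/-- Kernels at the points of a nonempty open subset of the disc are complete. -/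
lemma dense_ker {U : Set ℂ} (hU : IsOpen U) (hne : U.Nonempty) (hsub : ∀ a ∈ U, ‖a‖ < 1)
    (u : lp (fun _ : ℕ => ℂ) 2) :
    u ∈ closure (Submodule.span ℂ (ker '' U) : Set (lp (fun _ : ℕ => ℂ) 2)) := by
  have htop : (Submodule.span ℂ (ker '' U)).topologicalClosure = ⊤ := by
    rw [Submodule.topologicalClosure_eq_top_iff, Submodule.eq_bot_iff]
    intro g hg
    have hg' := (Submodule.mem_orthogonal _ g).1 hg
    have hz : ∀ a ∈ U, ∑' n : ℕ, a ^ n * (g : ℕ → ℂ) n = 0 := by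
      intro a ha
      rw [← inner_ker (hsub a ha)]
      exact hg' _ (Submodule.subset_span ⟨a, ha, rfl⟩)
    have hC : ∀ n, ‖(g : ℕ → ℂ) n‖ ≤ ‖g‖ := fun n => lp.norm_apply_le_norm (by norm_num) g n
    obtain ⟨p, hp⟩ := hne
    obtain ⟨r, hr1, hr2⟩ := exists_between (max_lt (show (1 / 2 : ℝ) < 1 by norm_num) (hsub p hp))
    have hr0 : 0 < r := lt_trans (by norm_num) ((le_max_left _ _).trans_lt hr1)
    have hd : DifferentiableOn ℂ (fun z : ℂ => ∑' n : ℕ, z ^ n * (g : ℕ → ℂ) n)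
        (Metric.ball 0 r) := by
      refine Complex.differentiableOn_tsum_of_summable_norm (u := fun n => r ^ n * ‖g‖)
        ((summable_geometric_of_lt_one hr0.le hr2).mul_right _) ?_ Metric.isOpen_ball ?_
      · intro n
        fun_prop
      · intro n z hz'
        rw [norm_mul, norm_pow]
        rw [mem_ball_zero_iff] at hz'
        exact mul_le_mul (pow_le_pow_left₀ (norm_nonneg _) hz'.le n) (hC n) (norm_nonneg _)
          (by positivity)
    have han := hd.analyticOnNhd Metric.isOpen_ball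
    have hpr : p ∈ Metric.ball (0 : ℂ) r := by
      rw [mem_ball_zero_iff]
      exact (le_max_right _ _).trans_lt hr1
    have hev : (fun z : ℂ => ∑' n : ℕ, z ^ n * (g : ℕ → ℂ) n) =ᶠ[𝓝 p] 0 := by
      filter_upwards [hU.mem_nhds hp] with z hz'
      exact hz z hz'
    have hzero := han.eqOn_zero_of_preconnected_of_eventuallyEq_zero
      (convex_ball (0 : ℂ) r).isPreconnected hpr hev
    have hgz : ∀ n, (g : ℕ → ℂ) n = 0 := by
      apply coeff_zero (fun n => (g : ℕ → ℂ) n) ‖g‖ hC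
      intro q hq
      have hq0 : (0 : ℝ) < (q : ℝ) := by exact_mod_cast hq.1
      have hq1 : (q : ℝ) < 1 / 2 := by
        have h3 : ((q : ℚ) : ℝ) < ((1 / 2 : ℚ) : ℝ) := by exact_mod_cast hq.2
        simpa using h3
      refine hzero ?_
      rw [mem_ball_zero_iff, Complex.norm_real, Real.norm_of_nonneg hq0.le]
      exact hq1.trans ((le_max_left _ _).trans_lt hr1)
    ext n
    rw [hgz n]
    rfl
  rw [← Submodule.topologicalClosure_coe, htop]
  trivial

/-- A sequence of distinct points of an open set, avoiding a finite set, of which every point of the open set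
is a cluster point. -/
lemma exists_seq {U : Set ℂ} (hU : IsOpen U) (hne : U.Nonempty) (S : Set ℂ) (hS : S.Finite) :
    ∃ d : ℕ → ℂ, Function.Injective d ∧ (∀ n, d n ∈ U) ∧ (∀ n, d n ∉ S) ∧
      ∀ a ∈ U, ∀ (N : ℕ) (ε : ℝ), 0 < ε → ∃ k, N ≤ k ∧ dist (d k) a < ε := by
  obtain ⟨D, hDc, hDd⟩ := TopologicalSpace.exists_countable_dense ℂ
  have key : ∀ a ∈ U, ∀ (T : Set ℂ), T.Finite → ∀ ε : ℝ, 0 < ε →
      ∃ z ∈ D ∩ (U \ S), z ∉ T ∧ dist z a < ε := by
    intro a ha T hT ε hε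
    have h1 : (Metric.ball a ε ∩ U) ∈ 𝓝 a := inter_mem (Metric.ball_mem_nhds a hε) (hU.mem_nhds ha)
    have h2 : ((Metric.ball a ε ∩ U) \ (S ∪ T)).Nonempty :=
      ((infinite_of_mem_nhds a h1).sdiff (hS.union hT)).nonempty
    have h3 : IsOpen ((Metric.ball a ε ∩ U) \ (S ∪ T)) :=
      (Metric.isOpen_ball.inter hU).sdiff (hS.union hT).isClosed
    obtain ⟨z, hz, hzD⟩ := hDd.inter_open_nonempty _ h3 h2
    exact ⟨z, ⟨hzD, hz.1.2, fun h => hz.2 (Or.inl h)⟩, fun h => hz.2 (Or.inr h), hz.1.1⟩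
  have hinf : (D ∩ (U \ S)).Infinite := by
    intro hfin
    obtain ⟨a, ha⟩ := hne
    obtain ⟨z, hz, hz2, _⟩ := key a ha _ hfin 1 one_pos
    exact hz2 hz
  have h4 : Infinite ↥(D ∩ (U \ S)) := hinf.to_subtype
  have h5 : Countable ↥(D ∩ (U \ S)) := (hDc.mono Set.inter_subset_left).to_subtype
  obtain ⟨φ⟩ : Nonempty (ℕ ≃ ↥(D ∩ (U \ S))) :=
    ⟨(nonempty_denumerable ↥(D ∩ (U \ S))).some.eqv.symm⟩
  refine ⟨fun n => (φ n : ℂ), fun a b hab => φ.injective (Subtype.ext hab),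
    fun n => (φ n).2.2.1, fun n => (φ n).2.2.2, ?_⟩
  intro a ha N ε hε
  obtain ⟨z, hz, hz2, hz3⟩ := key a ha ((fun n => (φ n : ℂ)) '' (Set.Iio N))
    ((Set.finite_Iio N).image _) ε hε
  refine ⟨φ.symm ⟨z, hz⟩, ?_, by simpa using hz3⟩
  by_contra hcon
  push Not at hcon
  exact hz2 ⟨_, hcon, by simp⟩

/-- Every vector is reachable with late kernels of such a sequence. -/
lemma reach_seq {U : Set ℂ} (hU : IsOpen U) (hne : U.Nonempty) (hsub : ∀ a ∈ U, ‖a‖ < 1)
    {d : ℕ → ℂ} (hd : ∀ a ∈ U, ∀ (N : ℕ) (ε : ℝ), 0 < ε → ∃ k, N ≤ k ∧ dist (d k) a < ε)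
    (u : lp (fun _ : ℕ => ℂ) 2) : Reach (fun k => ker (d k)) u ‖u‖ := by
  refine reach_dense (S := ker '' U) ?_ (dense_ker hU hne hsub) u
  rintro _ ⟨a, ha, rfl⟩
  refine ⟨‖ker a‖, ?_⟩
  have h1 : Clus (fun k => ker (d k)) (ker a) := by
    intro N ε hε
    obtain ⟨δ, hδ, h2⟩ := Metric.continuousAt_iff.1 (ker_continuousAt (hsub a ha)) ε hε
    obtain ⟨k, hk, hk2⟩ := hd a ha N δ hδ
    refine ⟨k, hk, ?_⟩
    rw [← dist_eq_norm]
    exact h2 hk2
  have h2 := Clus.reach h1 1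
  rwa [one_smul] at h2

/-- Between `N` and `M` the kernels at the points `Λ k` reach the first `i + 1` targets. -/
def Blk (v : ℕ → lp (fun _ : ℕ => ℂ) 2) (Λ : ℕ → ℂ) (N M i : ℕ) : Prop :=
  ∀ j ≤ i, ∃ c : ℕ → ℂ,
    (∀ m, N ≤ m → m ≤ M → ‖∑ k ∈ Finset.Ico N m, c k • ker (Λ k)‖ ≤ ‖v j‖ + 1 / 2 ^ i) ∧
    ‖∑ k ∈ Finset.Ico N M, c k • ker (Λ k) - v j‖ ≤ 1 / 2 ^ i

lemma Blk.congr {v : ℕ → lp (fun _ : ℕ => ℂ) 2} {Λ Λ' : ℕ → ℂ} {N M i : ℕ} (h : Blk v Λ N M i)
    (he : ∀ k, k < M → Λ' k = Λ k) : Blk v Λ' N M i := by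
  intro j hj
  obtain ⟨c, h1, h2⟩ := h j hj
  have hs : ∀ m, m ≤ M → ∑ k ∈ Finset.Ico N m, c k • ker (Λ' k) =
      ∑ k ∈ Finset.Ico N m, c k • ker (Λ k) := by
    intro m hm
    refine Finset.sum_congr rfl fun k hk => ?_
    rw [Finset.mem_Ico] at hk
    rw [he k (by omega)]
  refine ⟨c, fun m hm hm' => ?_, ?_⟩
  · rw [hs m hm']
    exact h1 m hm hm'
  · rw [hs M le_rfl]
    exact h2

lemma sum_cut {X : Type*} [AddCommMonoid X] [Module ℂ X] (y : ℕ → X) (c : ℕ → ℂ) (M m : ℕ) :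
    ∑ l ∈ Finset.range m, (if l < M then c l else 0) • y l =
      ∑ l ∈ Finset.Ico 0 (min m M), c l • y l := by
  have h0 : Finset.Ico 0 (min m M) ⊆ Finset.range m := by
    intro l hl
    rw [Finset.mem_Ico] at hl
    rw [Finset.mem_range]
    omega
  rw [← Finset.sum_subset h0]
  · refine Finset.sum_congr rfl fun l hl => ?_
    rw [Finset.mem_Ico] at hl
    rw [if_pos (by omega)]
  · intro l hl hl2
    rw [Finset.mem_range] at hl
    rw [Finset.mem_Ico] at hl2
    rw [if_neg (by omega), zero_smul]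

/-- Adding a block of points of a given open set. -/
lemma extend (v : ℕ → lp (fun _ : ℕ => ℂ) 2) {U : Set ℂ} (hU : IsOpen U) (hne : U.Nonempty)
    (hsub : ∀ a ∈ U, ‖a‖ < 1) (i : ℕ) (s : ℕ × (ℕ → ℂ)) (hs : Set.InjOn s.2 (Set.Iio s.1)) :
    ∃ t : ℕ × (ℕ → ℂ), s.1 < t.1 ∧ (∀ k, k < s.1 → t.2 k = s.2 k) ∧
      Set.InjOn t.2 (Set.Iio t.1) ∧ (∀ k, s.1 ≤ k → k < t.1 → t.2 k ∈ U) ∧
      Blk v t.2 s.1 t.1 i := by
  obtain ⟨N, Λ⟩ := s
  simp only at hs ⊢
  obtain ⟨d, hd1, hd2, hd3, hd4⟩ := exists_seq hU hne (Λ '' Set.Iio N) ((Set.finite_Iio N).image _)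
  have hr := reach_seq hU hne hsub hd4
  choose M hM c h1 h2 using fun j => hr (v j) 0 (1 / 2 ^ i) (by positivity)
  obtain ⟨K, hK⟩ : ∃ K : ℕ, K = (Finset.range (i + 1)).sup M := ⟨_, rfl⟩
  have hMK : ∀ j ≤ i, M j ≤ K := by
    intro j hj
    rw [hK]
    exact Finset.le_sup (f := M) (Finset.mem_range.2 (by omega))
  have hK0 : 0 < K := (hM 0).trans_le (hMK 0 (Nat.zero_le _))
  refine ⟨(N + K, fun k => if k < N then Λ k else d (k - N)), by simp only; omega, ?_, ?_, ?_, ?_⟩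
  · intro k hk
    exact if_pos hk
  · intro a ha b hb hab
    simp only [Set.mem_Iio] at ha hb hab
    by_cases ha' : a < N
    · by_cases hb' : b < N
      · rw [if_pos ha', if_pos hb'] at hab
        exact hs ha' hb' hab
      · rw [if_pos ha', if_neg hb'] at hab
        exact absurd ⟨a, ha', hab⟩ (hd3 (b - N))
    · by_cases hb' : b < N
      · rw [if_neg ha', if_pos hb'] at hab
        exact absurd ⟨b, hb', hab.symm⟩ (hd3 (a - N))
      · rw [if_neg ha', if_neg hb'] at hab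
        have := hd1 hab
        omega
  · intro k hk _
    simp only
    rw [if_neg (by omega)]
    exact hd2 _
  · intro j hj
    simp only
    refine ⟨fun k => if k - N < M j then c j (k - N) else 0, ?_⟩
    have hsum : ∀ m, ∑ k ∈ Finset.Ico N m, (if k - N < M j then c j (k - N) else 0) •
        ker (if k < N then Λ k else d (k - N)) =
        ∑ l ∈ Finset.Ico 0 (min (m - N) (M j)), c j l • ker (d l) := by
      intro m
      rw [Finset.sum_Ico_eq_sum_range, ← sum_cut (fun l => ker (d l)) (c j) (M j) (m - N)]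
      refine Finset.sum_congr rfl fun l _ => ?_
      rw [Nat.add_sub_cancel_left, if_neg (show ¬ N + l < N by omega)]
    constructor
    · intro m _ _
      rw [hsum]
      exact h1 j _ (Nat.zero_le _) (min_le_right _ _)
    · rw [hsum, Nat.add_sub_cancel_left, min_eq_right (hMK j hj)]
      exact h2 j

/-- The targets: kernels at the rational points of `(0, 1/2)`. -/
lemma dense_targets {e : ℕ → ℚ} (he : ∀ q ∈ Sset, ∃ n, e n = q)
    (u : lp (fun _ : ℕ => ℂ) 2) :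
    u ∈ closure (Submodule.span ℂ (Set.range fun j => ker ((e j : ℝ) : ℂ)) :
      Set (lp (fun _ : ℕ => ℂ) 2)) := by
  have htop : (Submodule.span ℂ (Set.range fun j => ker ((e j : ℝ) : ℂ))).topologicalClosure = ⊤ := by
    rw [Submodule.topologicalClosure_eq_top_iff, Submodule.eq_bot_iff]
    intro g hg
    have hg' := (Submodule.mem_orthogonal _ g).1 hg
    have hC : ∀ n, ‖(g : ℕ → ℂ) n‖ ≤ ‖g‖ := fun n => lp.norm_apply_le_norm (by norm_num) g n
    have hgz : ∀ n, (g : ℕ → ℂ) n = 0 := by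
      apply coeff_zero (fun n => (g : ℕ → ℂ) n) ‖g‖ hC
      intro q hq
      have hq0 : (0 : ℝ) < (q : ℝ) := by exact_mod_cast hq.1
      have hq1 : (q : ℝ) < 1 / 2 := by
        have h3 : ((q : ℚ) : ℝ) < ((1 / 2 : ℚ) : ℝ) := by exact_mod_cast hq.2
        simpa using h3
      obtain ⟨j, hj⟩ := he q hq
      rw [← inner_ker (by
        rw [Complex.norm_real, Real.norm_of_nonneg hq0.le]
        linarith)]
      exact hg' _ (Submodule.subset_span ⟨j, by simp only; rw [hj]⟩)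
    ext n
    rw [hgz n]
    rfl
  rw [← Submodule.topologicalClosure_coe, htop]
  trivial

/-- **Representing systems with points in prescribed regions.** -/
theorem blocks (D : ℕ → Set ℂ) (hD : ∀ i, IsOpen (D i)) (hne : ∀ i, (D i).Nonempty)
    (hsub : ∀ i, ∀ a ∈ D i, ‖a‖ < 1) :
    ∃ (N : ℕ → ℕ) (Λ : ℕ → ℂ), StrictMono N ∧ N 0 = 0 ∧ Function.Injective Λ ∧
      (∀ j k, N j ≤ k → k < N (j + 1) → Λ k ∈ D j) ∧
      ∀ f : lp (fun _ : ℕ => ℂ) 2, ∃ c : ℕ → ℂ,
        Tendsto (fun M : ℕ => ∑ k ∈ Finset.range M, c k • ker (Λ k)) atTop (𝓝 f) := by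
  obtain ⟨e, _, _, he3⟩ := exists_enum
  set v : ℕ → lp (fun _ : ℕ => ℂ) 2 := fun j => ker ((e j : ℝ) : ℂ) with hv
  choose! nxt h1 h2 h3 h4 h5 using fun (j : ℕ) (s : ℕ × (ℕ → ℂ))
    (hs : Set.InjOn s.2 (Set.Iio s.1)) => extend v (hD j) (hne j) (hsub j) j s hs
  let S : ℕ → ℕ × (ℕ → ℂ) := fun n => Nat.rec (0, fun _ => 0) (fun j s => nxt j s) n
  have hS : ∀ j, S (j + 1) = nxt j (S j) := fun j => rfl
  have hinj : ∀ j, Set.InjOn (S j).2 (Set.Iio (S j).1) := by
    intro j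
    induction j with
    | zero =>
      intro a ha
      exact absurd ha (Nat.not_lt_zero a)
    | succ j ih =>
      rw [hS]
      exact h3 j (S j) ih
  have hlt : ∀ j, (S j).1 < (S (j + 1)).1 := fun j => by rw [hS]; exact h1 j (S j) (hinj j)
  have hmono : StrictMono (fun j => (S j).1) := strictMono_nat_of_lt_succ hlt
  have hge : ∀ j, j ≤ (S j).1 := fun j => hmono.le_apply
  have hstab : ∀ i j, i ≤ j → ∀ k, k < (S i).1 → (S j).2 k = (S i).2 k := by
    intro i j hij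
    induction j, hij using Nat.le_induction with
    | base => intro k _; rfl
    | succ j hij ih =>
      intro k hk
      rw [hS, h2 j (S j) (hinj j) k (lt_of_lt_of_le hk (hmono.monotone hij)), ih k hk]
  obtain ⟨Λ, hΛ⟩ : ∃ Λ : ℕ → ℂ, ∀ k, Λ k = (S (k + 1)).2 k := ⟨_, fun _ => rfl⟩
  have hc : ∀ j k, k < (S j).1 → Λ k = (S j).2 k := by
    intro j k hk
    rw [hΛ]
    rcases le_total j (k + 1) with h | h
    · exact hstab j (k + 1) h k hk
    · exact (hstab (k + 1) j h k (lt_of_lt_of_le (Nat.lt_succ_self k) (hge (k + 1)))).symm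
  have hblk : ∀ j, Blk v Λ (S j).1 (S (j + 1)).1 j := by
    intro j
    have h6 := h5 j (S j) (hinj j)
    rw [← hS] at h6
    exact h6.congr fun k hk => hc (j + 1) k hk
  refine ⟨fun j => (S j).1, Λ, hmono, rfl, ?_, ?_, ?_⟩
  · intro a b hab
    have ha : a < (S (max a b + 1)).1 :=
      lt_of_lt_of_le (show a < max a b + 1 by omega) (hge _)
    have hb : b < (S (max a b + 1)).1 :=
      lt_of_lt_of_le (show b < max a b + 1 by omega) (hge _)
    rw [hc (max a b + 1) a ha, hc (max a b + 1) b hb] at hab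
    exact hinj (max a b + 1) ha hb hab
  · intro j k hk hk2
    rw [hc (j + 1) k hk2, hS]
    exact h4 j (S j) (hinj j) k hk (by rw [← hS]; exact hk2)
  · refine representing (reach_dense (S := Set.range v) ?_ (dense_targets he3))
    rintro _ ⟨j, rfl⟩
    refine ⟨‖v j‖, ?_⟩
    intro N₀ ε hε
    obtain ⟨J, hJ⟩ := exists_pow_lt_of_lt_one hε (show (1 / 2 : ℝ) < 1 by norm_num)
    obtain ⟨i, hi⟩ : ∃ i, i = max (max J j) N₀ := ⟨_, rfl⟩
    have hi1 : (1 : ℝ) / 2 ^ i ≤ ε := by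
      rw [← one_div_pow]
      exact (pow_le_pow_of_le_one (by norm_num) (by norm_num) (by omega)).trans hJ.le
    have hi2 : N₀ ≤ (S i).1 := le_trans (by omega) (hge i)
    obtain ⟨c, hc1, hc2⟩ := hblk i j (by omega)
    refine ⟨(S (i + 1)).1, lt_of_le_of_lt hi2 (hlt i), fun k => if k < (S i).1 then 0 else c k, ?_, ?_⟩
    · intro m hm hm'
      rcases le_or_gt m (S i).1 with h | h
      · rw [sum_ite_lt (fun k => ker (Λ k)) (fun _ => 0) c h]
        simp only [zero_smul, Finset.sum_const_zero, norm_zero]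
        positivity
      · rw [sum_ite_ge (fun k => ker (Λ k)) (fun _ => 0) c hi2 h.le]
        simp only [zero_smul, Finset.sum_const_zero, zero_add]
        exact (hc1 m h.le hm').trans (by linarith)
    · rw [sum_ite_ge (fun k => ker (Λ k)) (fun _ => 0) c hi2 (hlt i).le]
      simp only [zero_smul, Finset.sum_const_zero, zero_add]
      exact hc2.trans hi1

end MP321233
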