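import Mathlib

/-!
# [MP_321233_an] representing systems of Cauchy kernels: the abstract part

The first part is the reachability argument of `Pool/Agent/S04269.lean` (helper36), in a form that
starts from any set of reachable vectors with dense span instead of cluster vectors.
-/

set_option autoImplicit false

namespace MP321233

section Abstract

variable {X : Type*} [NormedAddCommGroup X] [NormedSpace ℂ X]

/-- `u` can be approximately reached by finite sums of multiples of late members of the sequence `y`,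
in their order, with all intermediate sums bounded by `B` up to an arbitrarily small error. -/
def Reach (y : ℕ → X) (u : X) (B : ℝ) : Prop :=
  ∀ N : ℕ, ∀ ε : ℝ, 0 < ε → ∃ M : ℕ, N < M ∧ ∃ c : ℕ → ℂ,
    (∀ m, N ≤ m → m ≤ M → ‖∑ k ∈ Finset.Ico N m, c k • y k‖ ≤ B + ε) ∧
    ‖∑ k ∈ Finset.Ico N M, c k • y k - u‖ ≤ ε

lemma sum_ite_lt (y : ℕ → X) (c₁ c₂ : ℕ → ℂ) {N M m : ℕ} (hm : m ≤ M) :
    ∑ k ∈ Finset.Ico N m, (if k < M then c₁ k else c₂ k) • y k =
      ∑ k ∈ Finset.Ico N m, c₁ k • y k := by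
  apply Finset.sum_congr rfl
  intro k hk
  rw [Finset.mem_Ico] at hk
  rw [if_pos (by omega)]

lemma sum_ite_ge (y : ℕ → X) (c₁ c₂ : ℕ → ℂ) {N M m : ℕ} (hN : N ≤ M) (hm : M ≤ m) :
    ∑ k ∈ Finset.Ico N m, (if k < M then c₁ k else c₂ k) • y k =
      ∑ k ∈ Finset.Ico N M, c₁ k • y k + ∑ k ∈ Finset.Ico M m, c₂ k • y k := by
  rw [← Finset.sum_Ico_consecutive _ hN hm]
  congr 1
  · exact sum_ite_lt y c₁ c₂ le_rfl
  · apply Finset.sum_congr rfl
    intro k hk
    rw [Finset.mem_Ico] at hk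
    rw [if_neg (by omega)]

lemma Reach.mono {y : ℕ → X} {u : X} {B B' : ℝ} (h : Reach y u B) (hB : B ≤ B') :
    Reach y u B' := by
  intro N ε hε
  obtain ⟨M, hM, c, h1, h2⟩ := h N ε hε
  exact ⟨M, hM, c, fun m hm hm' => (h1 m hm hm').trans (by linarith), h2⟩

lemma Reach.add {y : ℕ → X} {u v : X} {B B' : ℝ} (hu : Reach y u B) (hv : Reach y v B') :
    Reach y (u + v) (max B (‖u‖ + B')) := by
  intro N ε hε
  obtain ⟨M₁, hM₁, c₁, h1, h2⟩ := hu N (ε / 2) (by linarith)
  obtain ⟨M₂, hM₂, c₂, h3, h4⟩ := hv M₁ (ε / 2) (by linarith)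
  refine ⟨M₂, by omega, fun k => if k < M₁ then c₁ k else c₂ k, ?_, ?_⟩
  · intro m hm hm'
    rcases le_or_gt m M₁ with h | h
    · rw [sum_ite_lt y c₁ c₂ h]
      calc _ ≤ B + ε / 2 := h1 m hm h
        _ ≤ max B (‖u‖ + B') + ε := by
          have := le_max_left B (‖u‖ + B')
          linarith
    · rw [sum_ite_ge y c₁ c₂ hM₁.le h.le]
      have e1 : ‖∑ k ∈ Finset.Ico N M₁, c₁ k • y k‖ ≤ ‖u‖ + ε / 2 := by
        have : ∑ k ∈ Finset.Ico N M₁, c₁ k • y k =
          u + (∑ k ∈ Finset.Ico N M₁, c₁ k • y k - u) := by abel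
        rw [this]
        exact (norm_add_le _ _).trans (by linarith)
      calc _ ≤ ‖∑ k ∈ Finset.Ico N M₁, c₁ k • y k‖ + ‖∑ k ∈ Finset.Ico M₁ m, c₂ k • y k‖ :=
            norm_add_le _ _
        _ ≤ (‖u‖ + ε / 2) + (B' + ε / 2) := add_le_add e1 (h3 m h.le hm')
        _ ≤ max B (‖u‖ + B') + ε := by
          have := le_max_right B (‖u‖ + B')
          linarith
  · rw [sum_ite_ge y c₁ c₂ hM₁.le hM₂.le]
    have : ∑ k ∈ Finset.Ico N M₁, c₁ k • y k + ∑ k ∈ Finset.Ico M₁ M₂, c₂ k • y k - (u + v) =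
      (∑ k ∈ Finset.Ico N M₁, c₁ k • y k - u) + (∑ k ∈ Finset.Ico M₁ M₂, c₂ k • y k - v) := by
      abel
    rw [this]
    exact (norm_add_le _ _).trans (by linarith)

/-- `a` is a cluster vector of the sequence `y`. -/
def Clus (y : ℕ → X) (a : X) : Prop :=
  ∀ N : ℕ, ∀ ε : ℝ, 0 < ε → ∃ k, N ≤ k ∧ ‖y k - a‖ < ε

lemma reach_zero (y : ℕ → X) : Reach y (0 : X) 0 := by
  intro N ε hε
  refine ⟨N + 1, by omega, fun _ => 0, ?_, ?_⟩
  · intro m _ _
    simp [hε.le]
  · simp [hε.le]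

lemma Clus.reach {y : ℕ → X} {a : X} (h : Clus y a) (α : ℂ) : Reach y (α • a) ‖α • a‖ := by
  intro N ε hε
  obtain ⟨k, hk, hk2⟩ := h N (ε / (‖α‖ + 1)) (by positivity)
  have key : ‖α • y k - α • a‖ ≤ ε := by
    rw [← smul_sub, norm_smul]
    have h1 : ‖α‖ * ‖y k - a‖ ≤ (‖α‖ + 1) * (ε / (‖α‖ + 1)) := by
      apply mul_le_mul (by linarith) hk2.le (norm_nonneg _) (by positivity)
    have h2 : (‖α‖ + 1) * (ε / (‖α‖ + 1)) = ε := by
      field_simp
    linarith
  have hz : ∀ m, m ≤ k → ∑ j ∈ Finset.Ico N m, (if j = k then α else 0) • y j = 0 := by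
    intro m hm
    apply Finset.sum_eq_zero
    intro j hj
    rw [Finset.mem_Ico] at hj
    rw [if_neg (by omega), zero_smul]
  have hs : ∑ j ∈ Finset.Ico N (k + 1), (if j = k then α else 0) • y j = α • y k := by
    rw [Finset.sum_Ico_succ_top hk, hz k le_rfl, if_pos rfl, zero_add]
  refine ⟨k + 1, by omega, fun j => if j = k then α else 0, ?_, ?_⟩
  · intro m hm hm'
    rcases Nat.lt_or_ge k m with h1 | h1
    · have hmk : m = k + 1 := by omega
      subst hmk
      rw [hs]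
      have : α • y k = α • a + (α • y k - α • a) := by abel
      rw [this]
      exact (norm_add_le _ _).trans (by linarith)
    · rw [hz m h1, norm_zero]; positivity
  · rw [hs]
    exact key

lemma reach_of_forall {y : ℕ → X} {u : X} {B : ℝ} (h : ∀ η : ℝ, 0 < η → Reach y u (B + η)) :
    Reach y u B := by
  intro N ε hε
  obtain ⟨M, hM, c, h1, h2⟩ := h (ε / 2) (by linarith) N (ε / 2) (by linarith)
  exact ⟨M, hM, c, fun m hm hm' => (h1 m hm hm').trans (by linarith), h2.trans (by linarith)⟩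

/-- Reachable vectors can be scaled. -/
lemma Reach.smul {y : ℕ → X} {u : X} {B : ℝ} (h : Reach y u B) (α : ℂ) :
    Reach y (α • u) (‖α‖ * B) := by
  intro N ε hε
  obtain ⟨M, hM, c, h1, h2⟩ := h N (ε / (‖α‖ + 1)) (by positivity)
  have hε2 : ‖α‖ * (ε / (‖α‖ + 1)) ≤ ε := by
    rw [← mul_div_assoc, div_le_iff₀ (by positivity)]
    nlinarith [norm_nonneg α]
  have hs : ∀ m, ∑ k ∈ Finset.Ico N m, (α * c k) • y k = α • ∑ k ∈ Finset.Ico N m, c k • y k := by
    intro m
    rw [Finset.smul_sum]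
    exact Finset.sum_congr rfl fun k _ => mul_smul _ _ _
  refine ⟨M, hM, fun k => α * c k, ?_, ?_⟩
  · intro m hm hm'
    rw [hs, norm_smul]
    calc ‖α‖ * ‖∑ k ∈ Finset.Ico N m, c k • y k‖ ≤ ‖α‖ * (B + ε / (‖α‖ + 1)) :=
          mul_le_mul_of_nonneg_left (h1 m hm hm') (norm_nonneg _)
      _ ≤ ‖α‖ * B + ε := by
          rw [mul_add]
          linarith
  · rw [hs, ← smul_sub, norm_smul]
    exact (mul_le_mul_of_nonneg_left h2 (norm_nonneg _)).trans hε2

lemma Reach.nonneg {y : ℕ → X} {u : X} {B : ℝ} (h : Reach y u B) : 0 ≤ B := by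
  by_contra hB
  push Not at hB
  obtain ⟨M, hM, c, h1, _⟩ := h 0 (-B / 2) (by linarith)
  have h2 := (norm_nonneg _).trans (h1 0 le_rfl hM.le)
  linarith

/-- Every vector of the span of a set of reachable vectors is reachable, with a bound that scales. -/
lemma exists_bound {y : ℕ → X} {S : Set X} (hS : ∀ a ∈ S, ∃ B : ℝ, Reach y a B) {u : X}
    (hu : u ∈ Submodule.span ℂ S) :
    ∃ C : ℝ, 0 ≤ C ∧ ∀ α : ℂ, Reach y (α • u) (‖α‖ * C) := by
  induction hu using Submodule.span_induction with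
  | mem x hx =>
    obtain ⟨B, hB⟩ := hS x hx
    exact ⟨B, hB.nonneg, fun α => hB.smul α⟩
  | zero =>
    refine ⟨0, le_rfl, ?_⟩
    intro r
    simpa using reach_zero y
  | add x z _ _ hx hz =>
    obtain ⟨C₁, hC₁, h1⟩ := hx
    obtain ⟨C₂, hC₂, h2⟩ := hz
    refine ⟨C₁ + ‖x‖ + C₂, by positivity, ?_⟩
    intro α
    rw [smul_add]
    refine (Reach.add (h1 α) (h2 α)).mono ?_
    rw [norm_smul]
    apply max_le
    · nlinarith [norm_nonneg x, norm_nonneg α, mul_nonneg (norm_nonneg α) (norm_nonneg x),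
        mul_nonneg (norm_nonneg α) hC₂]
    · nlinarith [norm_nonneg x, norm_nonneg α, mul_nonneg (norm_nonneg α) (norm_nonneg x),
        mul_nonneg (norm_nonneg α) hC₁]
  | smul β x _ hx =>
    obtain ⟨C₁, hC₁, h1⟩ := hx
    refine ⟨‖β‖ * C₁, by positivity, ?_⟩
    intro α
    rw [smul_smul]
    refine (h1 (α * β)).mono ?_
    rw [norm_mul, mul_assoc]

/-- Splitting into many small steps: a vector of the span of a set of reachable vectors is reachable
with all intermediate sums bounded by its norm. -/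
lemma reach_span {y : ℕ → X} {S : Set X} (hS : ∀ a ∈ S, ∃ B : ℝ, Reach y a B) {u : X}
    (hu : u ∈ Submodule.span ℂ S) :
    Reach y u ‖u‖ := by
  obtain ⟨C, hC, h⟩ := exists_bound hS hu
  apply reach_of_forall
  intro η hη
  obtain ⟨T, hT⟩ := exists_nat_gt (C / η)
  have hT0 : (0 : ℝ) < T := lt_of_le_of_lt (by positivity) hT
  have hT1 : C / T ≤ η := by
    rw [div_le_iff₀ hT0]
    rw [div_lt_iff₀ hη] at hT
    nlinarith
  have key : ∀ s : ℕ, Reach y (((s : ℂ) / T) • u) (((s : ℝ) / T) * ‖u‖ + C / T) := by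
    intro s
    induction s with
    | zero =>
      simp only [Nat.cast_zero, zero_div, zero_smul, zero_mul, zero_add]
      exact (reach_zero y).mono (by positivity)
    | succ s ih =>
      have h1 := h (1 / T)
      have h2 := ih.add h1
      have e1 : ((s : ℂ) / T) • u + (1 / T : ℂ) • u = (((s + 1 : ℕ) : ℂ) / T) • u := by
        rw [← add_smul]
        congr 1
        push_cast
        ring
      rw [e1] at h2
      refine h2.mono ?_
      have e2 : ‖((s : ℂ) / T) • u‖ = ((s : ℝ) / T) * ‖u‖ := by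
        rw [norm_smul, norm_div]
        simp
      have e3 : ‖(1 / T : ℂ)‖ = 1 / T := by
        rw [norm_div]
        simp
      rw [e2, e3]
      have e4 : (((s + 1 : ℕ) : ℝ) / T) * ‖u‖ = ((s : ℝ) / T) * ‖u‖ + (1 / T) * ‖u‖ := by
        push_cast
        ring
      rw [e4]
      have e5 : 0 ≤ (1 / (T : ℝ)) * ‖u‖ := by positivity
      apply max_le
      · linarith
      · have : 1 / (T : ℝ) * C = C / T := by ring
        linarith
  have hfin := key T
  have hTC : (T : ℂ) ≠ 0 := by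
    exact_mod_cast hT0.ne'
  rw [div_self hTC, div_self hT0.ne', one_smul, one_mul] at hfin
  exact hfin.mono (by linarith)

lemma reach_dense {y : ℕ → X} {S : Set X} (hS : ∀ a ∈ S, ∃ B : ℝ, Reach y a B)
    (hd : ∀ u : X, u ∈ closure (Submodule.span ℂ S : Set X)) (u : X) :
    Reach y u ‖u‖ := by
  intro N ε hε
  obtain ⟨v, hv, hv2⟩ := Metric.mem_closure_iff.1 (hd u) (ε / 2) (by linarith)
  obtain ⟨M, hM, c, h1, h2⟩ := reach_span hS hv N (ε / 2) (by linarith)
  rw [dist_eq_norm] at hv2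
  have e1 : ‖v‖ ≤ ‖u‖ + ε / 2 := by
    have : v = u - (u - v) := by abel
    rw [this]
    exact (norm_sub_le _ _).trans (by linarith)
  refine ⟨M, hM, c, fun m hm hm' => (h1 m hm hm').trans (by linarith), ?_⟩
  have : ∑ k ∈ Finset.Ico N M, c k • y k - u =
    (∑ k ∈ Finset.Ico N M, c k • y k - v) - (u - v) := by abel
  rw [this]
  exact (norm_sub_le _ _).trans (by linarith)

/-- One stage of the final construction. -/
lemma stage {y : ℕ → X} (hr : ∀ u : X, Reach y u ‖u‖) (f : X) (j : ℕ) (s : ℕ × (ℕ → ℂ)) :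
    ∃ t : ℕ × (ℕ → ℂ), s.1 < t.1 ∧ (∀ k, k < s.1 → t.2 k = s.2 k) ∧
      (∀ m, s.1 ≤ m → m ≤ t.1 → ‖f - ∑ k ∈ Finset.range m, t.2 k • y k‖ ≤
        2 * ‖f - ∑ k ∈ Finset.range s.1, s.2 k • y k‖ + 1 / 2 ^ j) ∧
      ‖f - ∑ k ∈ Finset.range t.1, t.2 k • y k‖ ≤ 1 / 2 ^ j := by
  obtain ⟨N, c⟩ := s
  set r : X := f - ∑ k ∈ Finset.range N, c k • y k with hrdef
  obtain ⟨M, hM, d, h1, h2⟩ := hr r N (1 / 2 ^ j) (by positivity)
  have hsum : ∀ m, N ≤ m → ∑ k ∈ Finset.range m, (if k < N then c k else d k) • y k =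
      ∑ k ∈ Finset.range N, c k • y k + ∑ k ∈ Finset.Ico N m, d k • y k := by
    intro m hm
    rw [Finset.range_eq_Ico, Finset.range_eq_Ico]
    exact sum_ite_ge y c d (Nat.zero_le _) hm
  refine ⟨(M, fun k => if k < N then c k else d k), hM, ?_, ?_, ?_⟩
  · intro k hk
    exact if_pos hk
  · intro m hm hm'
    show ‖f - ∑ k ∈ Finset.range m, (if k < N then c k else d k) • y k‖ ≤ 2 * ‖r‖ + 1 / 2 ^ j
    rw [hsum m hm]
    have : f - (∑ k ∈ Finset.range N, c k • y k + ∑ k ∈ Finset.Ico N m, d k • y k) =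
      r - ∑ k ∈ Finset.Ico N m, d k • y k := by rw [hrdef]; abel
    rw [this]
    exact (norm_sub_le _ _).trans (by linarith [h1 m hm hm'])
  · show ‖f - ∑ k ∈ Finset.range M, (if k < N then c k else d k) • y k‖ ≤ 1 / 2 ^ j
    rw [hsum M hM.le]
    have : f - (∑ k ∈ Finset.range N, c k • y k + ∑ k ∈ Finset.Ico N M, d k • y k) =
      -(∑ k ∈ Finset.Ico N M, d k • y k - r) := by rw [hrdef]; abel
    rw [this, norm_neg]
    exact h2

/-- Abstract criterion: if every vector is reachable with intermediate sums bounded by its norm, then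
the sequence is a representing system. -/
theorem representing {y : ℕ → X} (hr : ∀ u : X, Reach y u ‖u‖) (f : X) :
    ∃ c : ℕ → ℂ, Filter.Tendsto (fun N : ℕ => ∑ k ∈ Finset.range N, c k • y k)
      Filter.atTop (nhds f) := by
  choose! nxt h1 h2 h3 h4 using fun (j : ℕ) (s : ℕ × (ℕ → ℂ)) => stage hr f j s
  let S : ℕ → ℕ × (ℕ → ℂ) := fun n => Nat.rec (0, fun _ => 0) (fun j s => nxt j s) n
  have hS : ∀ j, S (j + 1) = nxt j (S j) := fun j => rfl
  have hlt : ∀ j, (S j).1 < (S (j + 1)).1 := fun j => by rw [hS]; exact h1 j (S j)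
  have hmono : StrictMono (fun j => (S j).1) := strictMono_nat_of_lt_succ hlt
  have hge : ∀ j, j ≤ (S j).1 := fun j => hmono.le_apply
  have hstab : ∀ i j, i ≤ j → ∀ k, k < (S i).1 → (S j).2 k = (S i).2 k := by
    intro i j hij
    induction j, hij using Nat.le_induction with
    | base => intro k _; rfl
    | succ j hij ih =>
      intro k hk
      rw [hS, h2 j (S j) k (lt_of_lt_of_le hk (hmono.monotone hij)), ih k hk]
  refine ⟨fun k => (S (k + 1)).2 k, ?_⟩
  have hc : ∀ j k, k < (S j).1 → (S (k + 1)).2 k = (S j).2 k := by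
    intro j k hk
    rcases le_total j (k + 1) with h | h
    · exact hstab j (k + 1) h k hk
    · exact (hstab (k + 1) j h k (lt_of_lt_of_le (Nat.lt_succ_self k) (hge (k + 1)))).symm
  have hsum : ∀ j m, m ≤ (S j).1 → ∑ k ∈ Finset.range m, (S (k + 1)).2 k • y k =
      ∑ k ∈ Finset.range m, (S j).2 k • y k := by
    intro j m hm
    apply Finset.sum_congr rfl
    intro k hk
    rw [hc j k (lt_of_lt_of_le (Finset.mem_range.1 hk) hm)]
  have hres : ∀ j, ‖f - ∑ k ∈ Finset.range (S (j + 1)).1, (S (j + 1)).2 k • y k‖ ≤ 1 / 2 ^ j := by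
    intro j
    rw [hS]
    exact h4 j (S j)
  rw [Metric.tendsto_atTop]
  intro ε hε
  obtain ⟨J, hJ⟩ := exists_pow_lt_of_lt_one (show (0 : ℝ) < ε / 3 by linarith)
    (show (1 / 2 : ℝ) < 1 by norm_num)
  refine ⟨(S (J + 1)).1, ?_⟩
  intro m hm
  -- find the block containing `m`
  have hex : ∃ j, m ≤ (S j).1 := ⟨m, hge m⟩
  classical
  obtain ⟨j, hj, hjmin⟩ : ∃ j, m ≤ (S j).1 ∧ ∀ i, i < j → ¬ m ≤ (S i).1 :=
    ⟨Nat.find hex, Nat.find_spec hex, fun i hi => Nat.find_min hex hi⟩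
  have hjJ : J + 1 ≤ j := by
    by_contra hcon
    push Not at hcon
    have := hmono hcon
    simp only at this
    omega
  rcases eq_or_lt_of_le hjJ with hjeq | hjgt
  · have hmeq : m = (S (J + 1)).1 := by rw [← hjeq] at hj; omega
    rw [dist_comm, dist_eq_norm, hmeq, hsum (J + 1) _ le_rfl]
    have e0 := hres J
    have e1 : (1 : ℝ) / 2 ^ J = (1 / 2) ^ J := by rw [one_div_pow]
    rw [e1] at e0
    linarith
  · obtain ⟨i, rfl⟩ : ∃ i, j = i + 2 := ⟨j - 2, by omega⟩
    have hlow : (S (i + 1)).1 ≤ m := by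
      have := hjmin (i + 1) (by omega)
      omega
    have e2 := h3 (i + 1) (S (i + 1)) m hlow (by rw [← hS]; exact hj)
    rw [← hS] at e2
    have e3 := hres i
    have hJi : J ≤ i := by omega
    have e4 : (1 : ℝ) / 2 ^ i ≤ (1 / 2) ^ J := by
      rw [← one_div_pow]
      exact pow_le_pow_of_le_one (by norm_num) (by norm_num) hJi
    have e5 : (1 : ℝ) / 2 ^ (i + 1) ≤ (1 / 2) ^ J := by
      rw [← one_div_pow]
      exact pow_le_pow_of_le_one (by norm_num) (by norm_num) (by omega)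
    rw [dist_comm, dist_eq_norm, hsum (i + 2) m hj]
    linarith

end Abstract

lemma norm_sq_eq (g : lp (fun _ : ℕ => ℂ) 2) : ‖g‖ ^ 2 = ∑' n, ‖(g : ℕ → ℂ) n‖ ^ 2 := by
  have := lp.norm_rpow_eq_tsum (p := 2) (by norm_num) g
  norm_num at this
  exact this

lemma summable_sq (g : lp (fun _ : ℕ => ℂ) 2) : Summable (fun n => ‖(g : ℕ → ℂ) n‖ ^ 2) := by
  have := (memℓp_gen_iff (by norm_num)).1 (lp.memℓp g)
  norm_num at this
  exact this

/-- The set of rational points of `(0, 1/2)`. -/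
def Sset : Set ℚ := {q | 0 < q ∧ q < 1 / 2}

lemma Sset_infinite : Sset.Infinite := Set.Ioo_infinite (by norm_num)

lemma exists_enum : ∃ e : ℕ → ℚ, Function.Injective e ∧ (∀ n, e n ∈ Sset) ∧
    ∀ q ∈ Sset, ∃ n, e n = q := by
  have : Infinite Sset := Sset_infinite.to_subtype
  obtain ⟨φ⟩ : Nonempty (ℕ ≃ Sset) := ⟨(nonempty_denumerable Sset).some.eqv.symm⟩
  refine ⟨fun n => (φ n : ℚ), ?_, fun n => (φ n).2, ?_⟩
  · intro a b hab
    exact φ.injective (Subtype.ext hab)
  · intro q hq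
    exact ⟨φ.symm ⟨q, hq⟩, by simp⟩

/-- A square summable sequence whose power series vanishes at the rational points of `(0,1/2)`
is zero. -/
lemma coeff_zero (g : ℕ → ℂ) (C : ℝ) (hC : ∀ n, ‖g n‖ ≤ C)
    (h : ∀ q ∈ Sset, ∑' n : ℕ, (((q : ℚ) : ℝ) : ℂ) ^ n * g n = 0) : ∀ n, g n = 0 := by
  have hC0 : 0 ≤ C := (norm_nonneg _).trans (hC 0)
  have hs : ∀ (m : ℕ) (t : ℝ), 0 < t → t < 1 / 2 → Summable (fun n => (t : ℂ) ^ n * g (n + m)) := by
    intro m t ht ht1
    refine Summable.of_norm_bounded (g := fun n => (1 / 2 : ℝ) ^ n * C)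
      ((summable_geometric_of_lt_one (by norm_num) (by norm_num)).mul_right C) ?_
    intro n
    rw [norm_mul, norm_pow, Complex.norm_real, Real.norm_of_nonneg ht.le]
    exact mul_le_mul (pow_le_pow_left₀ ht.le ht1.le n) (hC _) (norm_nonneg _) (by positivity)
  have hb : ∀ (m : ℕ) (t : ℝ), 0 < t → t < 1 / 2 →
      ‖∑' n : ℕ, (t : ℂ) ^ n * g (n + m)‖ ≤ 2 * C := by
    intro m t ht ht1
    have h2 : HasSum (fun n : ℕ => (1 / 2 : ℝ) ^ n * C) (2 * C) := by
      have := (hasSum_geometric_of_lt_one (r := (1 / 2 : ℝ)) (by norm_num) (by norm_num)).mul_right C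
      norm_num at this ⊢
      exact this
    refine tsum_of_norm_bounded h2 ?_
    intro n
    rw [norm_mul, norm_pow, Complex.norm_real, Real.norm_of_nonneg ht.le]
    exact mul_le_mul (pow_le_pow_left₀ ht.le ht1.le n) (hC _) (norm_nonneg _) (by positivity)
  have key : ∀ m : ℕ, ∀ q ∈ Sset, ∑' n : ℕ, (((q : ℚ) : ℝ) : ℂ) ^ n * g (n + m) = 0 ∧ g m = 0 := by
    intro m
    have hqr : ∀ q ∈ Sset, (0 : ℝ) < (q : ℝ) ∧ (q : ℝ) < 1 / 2 := by
      intro q hq
      refine ⟨by exact_mod_cast hq.1, ?_⟩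
      have := hq.2
      have h3 : ((q : ℚ) : ℝ) < ((1 / 2 : ℚ) : ℝ) := by exact_mod_cast this
      simpa using h3
    have hsplit : ∀ (m : ℕ) (q : ℚ), q ∈ Sset → ∑' n : ℕ, (((q : ℚ) : ℝ) : ℂ) ^ n * g (n + m) =
        g m + (((q : ℚ) : ℝ) : ℂ) * ∑' n : ℕ, (((q : ℚ) : ℝ) : ℂ) ^ n * g (n + (m + 1)) := by
      intro m q hq
      rw [(hs m q (hqr q hq).1 (hqr q hq).2).tsum_eq_zero_add, ← tsum_mul_left]
      congr 1
      · simp
      · apply tsum_congr
        intro n
        have : n + 1 + m = n + (m + 1) := by omega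
        rw [this]
        ring
    have hzero : ∀ m : ℕ, (∀ q ∈ Sset, ∑' n : ℕ, (((q : ℚ) : ℝ) : ℂ) ^ n * g (n + m) = 0) →
        g m = 0 := by
      intro m hm
      by_contra hne
      have hpos : 0 < ‖g m‖ := norm_pos_iff.2 hne
      obtain ⟨δ, hδ, hδ2⟩ := exists_rat_btwn (show (0 : ℝ) < min (1 / 2) (‖g m‖ / (2 * C + 1)) from
        lt_min (by norm_num) (by positivity))
      have hδS : δ ∈ Sset := by
        refine ⟨by exact_mod_cast hδ, ?_⟩
        have h3 : ((δ : ℚ) : ℝ) < ((1 / 2 : ℚ) : ℝ) := by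
          have := hδ2.trans_le (min_le_left _ _)
          simpa using this
        exact_mod_cast h3
      have h4 := hsplit m δ hδS
      rw [hm δ hδS] at h4
      have h5 : g m = -((((δ : ℚ) : ℝ) : ℂ) *
          ∑' n : ℕ, (((δ : ℚ) : ℝ) : ℂ) ^ n * g (n + (m + 1))) :=
        eq_neg_of_add_eq_zero_left h4.symm
      have h6 : ‖g m‖ ≤ δ * (2 * C) := by
        rw [h5, norm_neg, norm_mul, Complex.norm_real, Real.norm_of_nonneg hδ.le]
        exact mul_le_mul_of_nonneg_left (hb (m + 1) δ (hqr δ hδS).1 (hqr δ hδS).2) hδ.le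
      have h7 := hδ2.trans_le (min_le_right _ _)
      rw [lt_div_iff₀ (by positivity)] at h7
      nlinarith
    induction m with
    | zero =>
      have h0 : ∀ q ∈ Sset, ∑' n : ℕ, (((q : ℚ) : ℝ) : ℂ) ^ n * g (n + 0) = 0 := by
        intro q hq
        simpa using h q hq
      intro q hq
      exact ⟨h0 q hq, hzero 0 h0⟩
    | succ m ih =>
      have h0 : ∀ q ∈ Sset, ∑' n : ℕ, (((q : ℚ) : ℝ) : ℂ) ^ n * g (n + (m + 1)) = 0 := by
        intro q hq
        have h1 := hsplit m q hq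
        rw [(ih q hq).1, (ih q hq).2, zero_add] at h1
        have h2 : (((q : ℚ) : ℝ) : ℂ) ≠ 0 := by
          have := (hqr q hq).1
          exact_mod_cast this.ne'
        exact (mul_eq_zero.1 h1.symm).resolve_left h2
      intro q hq
      exact ⟨h0 q hq, hzero (m + 1) h0⟩
  intro n
  exact (key n (1 / 4) ⟨by norm_num, by norm_num⟩).2

end MP321233
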